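import Mathlib
import Pool.Agent.Lib.helper13.CzMain

set_option autoImplicit false

namespace Pool.Agent.Results.MP_2780b6_an.Standard

open Polynomial Pool.Agent.Lib.H13Zc

/-- A simple set: real polynomials `q k` of degree exactly `k`. -/
def IsSimpleSet (q : ℕ → ℝ[X]) : Prop := ∀ k, (q k).degree = k

/-- `γ` is complex zero decreasing for the simple set `q`. -/
def IsBCZDS (q : ℕ → ℝ[X]) (γ : ℕ → ℝ) : Prop :=
  ∀ (n : ℕ) (a : ℕ → ℝ), Zc (∑ k ∈ Finset.range (n + 1), C (γ k * a k) * q k) ≤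
    Zc (∑ k ∈ Finset.range (n + 1), C (a k) * q k)

theorem result : ∃ q : ℕ → ℝ[X], IsSimpleSet q ∧ IsBCZDS q fun k => Real.exp (-((k : ℝ) ^ 3)) := by
  refine ⟨fun k => X ^ k, fun k => degree_X_pow k, fun n a => ?_⟩
  convert isCZDS_exp 3 le_rfl (∑ k ∈ Finset.range (n + 1), C (a k) * X ^ k) using 2
  ext j
  simp only [coeff_act, finsetSum_coeff, coeff_C_mul_X_pow, Finset.sum_ite_eq]
  split_ifs <;> simp

end Pool.Agent.Results.MP_2780b6_an.Standard
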